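import Pool.Agent.W78.GA.Basic

/-!
Project GA (helper78), task GA-8 (helper397): comparison of a sum over the lattice
`{z : d ∣ z.re + r z.im}` in an ellipse with an integral over a disc. Adapted from W64/GM/Area.
-/

set_option autoImplicit false

namespace Pool.Agent.W397.GA

open Finset MeasureTheory
open Pool.Agent.W78.GA

/-- the square root of the discriminant -/
noncomputable def qq (t c : ℤ) : ℝ := Real.sqrt (4 * c - t ^ 2)

/-- second coordinate -/
noncomputable def cb (t c : ℤ) (w : ℂ) : ℝ := 2 * w.im / qq t c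

/-- first coordinate -/
noncomputable def ca (t c : ℤ) (d : ℕ) (r : ℤ) (w : ℂ) : ℝ :=
  (w.re - cb t c w * ((t : ℝ) / 2 - r)) / d

/-- the lower left lattice point -/
noncomputable def fl (t c : ℤ) (d : ℕ) (r : ℤ) (w : ℂ) : Qd t c :=
  ⟨d * ⌊ca t c d r w⌋ - r * ⌊cb t c w⌋, ⌊cb t c w⌋⟩

/-- the cell at `z` -/
def cell (t c : ℤ) (d : ℕ) (r : ℤ) (z : Qd t c) : Set ℂ := {w | fl t c d r w = z}

/-- radius of a cell -/
noncomputable def rho (t c : ℤ) (d : ℕ) (r : ℤ) : ℝ := d + |(t : ℝ) / 2 - r| + qq t c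

variable {t c : ℤ} {d : ℕ} {r : ℤ}

lemma qq_pos (hD : t ^ 2 < 4 * c) : 0 < qq t c := Real.sqrt_pos.2 (disc_pos hD)

lemma mem_cell {z : Qd t c} {w : ℂ} : w ∈ cell t c d r z ↔ fl t c d r w = z := Iff.rfl

lemma fl_lat (w : ℂ) : lat d r (fl t c d r w) := by
  unfold lat fl
  simp only
  exact ⟨⌊ca t c d r w⌋, by ring⟩

lemma cell_iff (hd : 1 ≤ d) {z : Qd t c} {m : ℤ} (hm : z.re + r * z.im = d * m) {w : ℂ} :
    w ∈ cell t c d r z ↔ ⌊ca t c d r w⌋ = m ∧ ⌊cb t c w⌋ = z.im := by
  rw [mem_cell]
  have hd0 : (d : ℤ) ≠ 0 := by exact_mod_cast (by omega : d ≠ 0)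
  constructor
  · intro h
    have h1 := congrArg (fun z : Qd t c => z.im) h
    have h2 := congrArg (fun z : Qd t c => z.re) h
    unfold fl at h1 h2
    simp only at h1 h2
    refine ⟨?_, h1⟩
    apply mul_left_cancel₀ hd0
    rw [← hm, ← h2, ← h1]
    ring
  · rintro ⟨h1, h2⟩
    unfold fl
    apply QuadraticAlgebra.ext
    · simp only
      rw [h1, h2, ← hm]
      ring
    · exact h2

lemma measurable_cb : Measurable (cb t c) := by
  unfold cb
  have := Complex.measurable_im
  fun_prop

lemma measurable_ca : Measurable (ca t c d r) := by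
  unfold ca
  have := Complex.measurable_re
  have := measurable_cb (t := t) (c := c)
  fun_prop

lemma measurableSet_cell (hd : 1 ≤ d) {z : Qd t c} (hz : lat d r z) :
    MeasurableSet (cell t c d r z) := by
  obtain ⟨m, hm⟩ := hz
  have : cell t c d r z = (fun w => ⌊ca t c d r w⌋) ⁻¹' {m} ∩ (fun w => ⌊cb t c w⌋) ⁻¹' {z.im} := by
    ext w
    rw [cell_iff hd hm]
    rfl
  rw [this]
  exact ((Int.measurable_floor.comp measurable_ca) (MeasurableSet.singleton _)).inter
    ((Int.measurable_floor.comp measurable_cb) (MeasurableSet.singleton _))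

lemma cb_sub_tc (hD : t ^ 2 < 4 * c) (w : ℂ) (z : Qd t c) : cb t c (w - tc z) = cb t c w - z.im := by
  unfold cb
  have h := qq_pos hD
  rw [Complex.sub_im, tc_im]
  have : Real.sqrt (4 * (c : ℝ) - (t : ℝ) ^ 2) = qq t c := rfl
  rw [this]
  field_simp

lemma ca_sub_tc (hD : t ^ 2 < 4 * c) (hd : 1 ≤ d) (w : ℂ) {z : Qd t c} {m : ℤ}
    (hm : z.re + r * z.im = d * m) :
    ca t c d r (w - tc z) = ca t c d r w - m := by
  unfold ca
  rw [cb_sub_tc hD, Complex.sub_re, tc_re]
  have hd0 : (d : ℝ) ≠ 0 := by exact_mod_cast (by omega : d ≠ 0)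
  have hm' : (z.re : ℝ) + r * z.im = d * m := by exact_mod_cast hm
  field_simp
  linear_combination (-2 : ℝ) * hm'

lemma volume_cell_eq (hD : t ^ 2 < 4 * c) (hd : 1 ≤ d) {z : Qd t c} (hz : lat d r z) :
    volume (cell t c d r z) = volume (cell t c d r 0) := by
  obtain ⟨m, hm⟩ := hz
  have h0 : (0 : Qd t c).re + r * (0 : Qd t c).im = d * (0 : ℤ) := by simp
  have h : cell t c d r z = (fun w => w + -tc z) ⁻¹' (cell t c d r 0) := by
    ext w
    rw [Set.mem_preimage, cell_iff hd hm, cell_iff hd h0, ← sub_eq_add_neg, ca_sub_tc hD hd w hm,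
      cb_sub_tc hD, Int.floor_sub_intCast, Int.floor_sub_intCast]
    simp only [QuadraticAlgebra.im_zero]
    omega
  rw [h]
  exact measure_preimage_add_right volume (-tc z) (cell t c d r 0)

lemma eq_coords (hD : t ^ 2 < 4 * c) (hd : 1 ≤ d) (w : ℂ) :
    w.re = d * ca t c d r w + cb t c w * ((t : ℝ) / 2 - r) ∧ w.im = cb t c w * qq t c / 2 := by
  have h := qq_pos hD
  have hd0 : (d : ℝ) ≠ 0 := by exact_mod_cast (by omega : d ≠ 0)
  constructor
  · unfold ca
    field_simp
    ring
  · unfold cb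
    field_simp

lemma norm_sub_fl (hD : t ^ 2 < 4 * c) (hd : 1 ≤ d) (w : ℂ) :
    ‖w - tc (fl t c d r w)‖ ≤ rho t c d r := by
  have hq := qq_pos hD
  obtain ⟨e1, e2⟩ := eq_coords (r := r) hD hd w
  have ha0 := Int.floor_le (ca t c d r w)
  have ha1 := (Int.lt_floor_add_one (ca t c d r w)).le
  have hb0 := Int.floor_le (cb t c w)
  have hb1 := (Int.lt_floor_add_one (cb t c w)).le
  have hd1 : (0 : ℝ) ≤ d := by positivity
  have h1 : |(w - tc (fl t c d r w)).re| ≤ d + |(t : ℝ) / 2 - r| := by
    have e : (w - tc (fl t c d r w)).re = d * (ca t c d r w - ⌊ca t c d r w⌋) +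
        (cb t c w - ⌊cb t c w⌋) * ((t : ℝ) / 2 - r) := by
      rw [Complex.sub_re, tc_re, e1]
      unfold fl
      push_cast
      ring
    rw [e]
    refine (abs_add_le _ _).trans ?_
    rw [abs_mul, abs_mul]
    have h2 : |ca t c d r w - ⌊ca t c d r w⌋| ≤ 1 := by rw [abs_le]; constructor <;> linarith
    have h3 : |cb t c w - ⌊cb t c w⌋| ≤ 1 := by rw [abs_le]; constructor <;> linarith
    have h4 : |(d : ℝ)| * |ca t c d r w - ⌊ca t c d r w⌋| ≤ d * 1 := by
      rw [abs_of_nonneg hd1]; gcongr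
    have h5 : |cb t c w - ⌊cb t c w⌋| * |(t : ℝ) / 2 - r| ≤ 1 * |(t : ℝ) / 2 - r| := by gcongr
    linarith
  have h2 : |(w - tc (fl t c d r w)).im| ≤ qq t c := by
    have e : (w - tc (fl t c d r w)).im = (cb t c w - ⌊cb t c w⌋) * (qq t c / 2) := by
      rw [Complex.sub_im, tc_im, e2]
      unfold fl
      simp only
      have : Real.sqrt (4 * (c : ℝ) - (t : ℝ) ^ 2) = qq t c := rfl
      rw [this]
      ring
    rw [e, abs_mul, abs_of_pos (by positivity : 0 < qq t c / 2)]
    have h3 : |cb t c w - ⌊cb t c w⌋| ≤ 1 := by rw [abs_le]; constructor <;> linarith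
    nlinarith
  unfold rho
  exact (Complex.norm_le_abs_re_add_abs_im _).trans (by linarith)

lemma one_le_rho (hD : t ^ 2 < 4 * c) (hd : 1 ≤ d) : 1 ≤ rho t c d r := by
  unfold rho
  have h1 : (1 : ℝ) ≤ d := by exact_mod_cast hd
  have := qq_pos hD
  have := abs_nonneg ((t : ℝ) / 2 - r)
  linarith

lemma cell_subset (hD : t ^ 2 < 4 * c) (hd : 1 ≤ d) :
    cell t c d r 0 ⊆ Metric.closedBall (0 : ℂ) (rho t c d r) := by
  intro w hw
  rw [mem_cell] at hw
  have h := norm_sub_fl (r := r) hD hd w
  rw [hw] at h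
  have h0 : tc (0 : Qd t c) = 0 := by
    have := tc_intCast (t := t) (c := c) 0
    simpa using this
  rw [h0, sub_zero] at h
  rwa [Metric.mem_closedBall, dist_zero_right]

lemma volume_cell_ne_top (hD : t ^ 2 < 4 * c) (hd : 1 ≤ d) {z : Qd t c} (hz : lat d r z) :
    volume (cell t c d r z) ≠ ⊤ := by
  rw [volume_cell_eq hD hd hz]
  exact ((measure_mono (cell_subset hD hd)).trans_lt measure_closedBall_lt_top).ne

/-- volume of a cell -/
noncomputable def VV (t c : ℤ) (d : ℕ) (r : ℤ) : ℝ := volume.real (cell t c d r 0)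

lemma VV_pos (hD : t ^ 2 < 4 * c) (hd : 1 ≤ d) : 0 < VV t c d r := by
  have h0 : (0 : Qd t c).re + r * (0 : Qd t c).im = d * (0 : ℤ) := by simp
  have hl : lat d r (0 : Qd t c) := ⟨0, h0⟩
  have hq := qq_pos hD
  have hd0 : (d : ℝ) ≠ 0 := by exact_mod_cast (by omega : d ≠ 0)
  have hca : Continuous (ca t c d r) := by
    unfold ca cb
    have := Complex.continuous_re
    have := Complex.continuous_im
    fun_prop
  have hcb : Continuous (cb t c) := by
    unfold cb
    have := Complex.continuous_im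
    fun_prop
  have hopen : IsOpen ((ca t c d r) ⁻¹' (Set.Ioo 0 1) ∩ (cb t c) ⁻¹' (Set.Ioo 0 1)) :=
    (isOpen_Ioo.preimage hca).inter (isOpen_Ioo.preimage hcb)
  have hne : ((ca t c d r) ⁻¹' (Set.Ioo 0 1) ∩ (cb t c) ⁻¹' (Set.Ioo 0 1)).Nonempty := by
    refine ⟨⟨d * (1 / 2) + 1 / 2 * ((t : ℝ) / 2 - r), 1 / 2 * qq t c / 2⟩, ?_⟩
    have eb : cb t c ⟨d * (1 / 2) + 1 / 2 * ((t : ℝ) / 2 - r), 1 / 2 * qq t c / 2⟩ = 1 / 2 := by
      unfold cb
      simp only
      field_simp
    have ea : ca t c d r ⟨d * (1 / 2) + 1 / 2 * ((t : ℝ) / 2 - r), 1 / 2 * qq t c / 2⟩ = 1 / 2 := by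
      unfold ca
      rw [eb]
      simp only
      field_simp
      ring
    rw [Set.mem_inter_iff, Set.mem_preimage, Set.mem_preimage, ea, eb]
    norm_num
  have hsub : (ca t c d r) ⁻¹' (Set.Ioo 0 1) ∩ (cb t c) ⁻¹' (Set.Ioo 0 1) ⊆ cell t c d r 0 := by
    intro w hw
    rw [Set.mem_inter_iff, Set.mem_preimage, Set.mem_preimage, Set.mem_Ioo, Set.mem_Ioo] at hw
    rw [cell_iff hd h0, Int.floor_eq_iff, Int.floor_eq_iff]
    simp only [QuadraticAlgebra.im_zero, Int.cast_zero, zero_add]
    exact ⟨⟨hw.1.1.le, hw.1.2⟩, hw.2.1.le, hw.2.2⟩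
  have hpos : 0 < volume (cell t c d r 0) := (hopen.measure_pos volume hne).trans_le
    (measure_mono hsub)
  exact ENNReal.toReal_pos hpos.ne' (volume_cell_ne_top hD hd hl)

lemma real_volume_cell (hD : t ^ 2 < 4 * c) (hd : 1 ≤ d) {z : Qd t c} (hz : lat d r z) :
    volume.real (cell t c d r z) = VV t c d r := by
  unfold VV
  rw [Measure.real, Measure.real, volume_cell_eq hD hd hz]

/-- a finite sum as an integral -/
lemma integral_fl {E : Type*} [NormedAddCommGroup E] [NormedSpace ℝ E] [CompleteSpace E]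
    (hD : t ^ 2 < 4 * c) (hd : 1 ≤ d) (s : Finset (Qd t c)) (hs : ∀ z ∈ s, lat d r z)
    (f : Qd t c → E) :
    Integrable (fun w : ℂ => ∑ z ∈ s, (cell t c d r z).indicator (fun _ => f z) w) ∧
    ∫ w : ℂ, ∑ z ∈ s, (cell t c d r z).indicator (fun _ => f z) w = VV t c d r • ∑ z ∈ s, f z := by
  have hI : ∀ z ∈ s, Integrable ((cell t c d r z).indicator (fun _ => f z)) := by
    intro z hz
    rw [integrable_indicator_iff (measurableSet_cell hd (hs z hz))]
    exact integrableOn_const (volume_cell_ne_top hD hd (hs z hz)) (by simp)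
  refine ⟨integrable_finsetSum _ hI, ?_⟩
  rw [integral_finsetSum _ hI, Finset.smul_sum]
  refine Finset.sum_congr rfl fun z hz => ?_
  rw [integral_indicator_const _ (measurableSet_cell hd (hs z hz)),
    real_volume_cell hD hd (hs z hz)]

open scoped Classical in
lemma sum_indicator_cell {E : Type*} [AddCommMonoid E] (s : Finset (Qd t c)) (f : Qd t c → E)
    (w : ℂ) : ∑ z ∈ s, (cell t c d r z).indicator (fun _ => f z) w =
      if fl t c d r w ∈ s then f (fl t c d r w) else 0 := by
  split_ifs with h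
  · rw [Finset.sum_eq_single (fl t c d r w)]
    · exact Set.indicator_of_mem (mem_cell.2 rfl) _
    · intro z _ hz
      exact Set.indicator_of_notMem (fun h2 => hz (mem_cell.1 h2).symm) _
    · exact fun h2 => absurd h h2
  · apply Finset.sum_eq_zero
    intro z hz
    exact Set.indicator_of_notMem (fun h2 => h ((mem_cell.1 h2) ▸ hz)) _

lemma real_volume_closedBall (r : ℝ) (hr : 0 ≤ r) :
    volume.real (Metric.closedBall (0 : ℂ) r) = Real.pi * r ^ 2 := by
  rw [Measure.real, Complex.volume_closedBall]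
  rw [ENNReal.toReal_mul, ENNReal.toReal_pow, ENNReal.toReal_ofReal hr]
  simp [mul_comm]

/-- comparison of the sum and the integral -/
theorem comp (hD : t ^ 2 < 4 * c) (hd : 1 ≤ d) (f : ℂ → ℂ) (hf : Measurable f)
    (hb : ∀ w, ‖f w‖ ≤ 1) (L : ℝ) (hL : 0 ≤ L)
    (hLip : ∀ w : ℂ, fl t c d r w ≠ 0 → ‖f w - f (tc (fl t c d r w))‖ ≤
      L / Real.sqrt (nm (fl t c d r w)))
    (X : ℝ) (hX : 1 ≤ X) :
    ‖VV t c d r • ∑ z ∈ (ball t c X).filter (lat d r), f (tc z) -
      ∫ w in Metric.closedBall (0 : ℂ) (Real.sqrt X), f w‖ ≤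
      VV t c d r * (L * ∑ z ∈ (ball t c X).filter (lat d r), 1 / Real.sqrt (nm z)) +
        9 * Real.pi * rho t c d r ^ 2 * Real.sqrt X := by
  classical
  obtain ⟨S, hS⟩ : ∃ S, S = (ball t c X).filter (lat d r) := ⟨_, rfl⟩
  have hSl : ∀ z ∈ S, lat d r z := by
    intro z hz
    rw [hS, Finset.mem_filter] at hz
    exact hz.2
  rw [← hS]
  obtain ⟨ρ, hρ⟩ : ∃ ρ, ρ = rho t c d r := ⟨_, rfl⟩
  have hρ1 : 1 ≤ ρ := by rw [hρ]; exact one_le_rho hD hd
  rw [← hρ]
  set R : ℝ := Real.sqrt X with hR
  have hR1 : 1 ≤ R := by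
    rw [hR]; rw [Real.one_le_sqrt]; exact hX
  have hR2 : R ^ 2 = X := Real.sq_sqrt (by linarith)
  obtain ⟨g1, g2⟩ := integral_fl hD hd S hSl (fun z => f (tc z))
  obtain ⟨k1, k2⟩ := integral_fl hD hd S hSl (fun z => L * (1 / Real.sqrt (nm z)))
  -- the exceptional set
  set A : Set ℂ := Metric.closedBall (0 : ℂ) (R + ρ) \ Metric.ball (0 : ℂ) (R - ρ) with hA
  set B : Set ℂ := Metric.closedBall (0 : ℂ) ρ with hB
  have hAm : MeasurableSet A := Metric.isClosed_closedBall.measurableSet.diff
    Metric.isOpen_ball.measurableSet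
  have hBm : MeasurableSet B := Metric.isClosed_closedBall.measurableSet
  have hAfin : volume A ≠ ⊤ := ((measure_mono Set.sdiff_subset).trans_lt
    measure_closedBall_lt_top).ne
  have hBfin : volume B ≠ ⊤ := measure_closedBall_lt_top.ne
  have hAI : Integrable (A.indicator (fun _ => (1 : ℝ))) := by
    rw [integrable_indicator_iff hAm]
    exact integrableOn_const hAfin (by simp)
  have hBI : Integrable (B.indicator (fun _ => (1 : ℝ))) := by
    rw [integrable_indicator_iff hBm]
    exact integrableOn_const hBfin (by simp)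
  have hABI : Integrable (fun w => A.indicator (fun _ => (1 : ℝ)) w +
      B.indicator (fun _ => (1 : ℝ)) w) := hAI.add hBI
  have hA2 : ∫ w, A.indicator (fun _ => (1 : ℝ)) w ≤ 8 * Real.pi * ρ ^ 2 * R := by
    rw [integral_indicator_const _ hAm, smul_eq_mul, mul_one]
    have hpi := Real.pi_pos
    rcases le_or_gt ρ R with h2 | h2
    · have e1 : volume.real A = Real.pi * (R + ρ) ^ 2 - Real.pi * (R - ρ) ^ 2 := by
        rw [hA, measureReal_sdiff (h₁ := measure_closedBall_lt_top.ne)]
        · rw [real_volume_closedBall _ (by linarith)]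
          congr 1
          rw [Measure.real, Complex.volume_ball]
          rw [ENNReal.toReal_mul, ENNReal.toReal_pow, ENNReal.toReal_ofReal (by linarith)]
          simp [mul_comm]
        · exact (Metric.ball_subset_ball (by linarith)).trans Metric.ball_subset_closedBall
        · exact Metric.isOpen_ball.measurableSet
      rw [e1]
      have h3 : ρ * R ≤ ρ ^ 2 * R := by nlinarith [mul_nonneg (by linarith : 0 ≤ ρ - 1) (mul_nonneg (by linarith : 0 ≤ ρ) (by linarith : 0 ≤ R))]
      have h4 : 0 ≤ ρ ^ 2 * R := by positivity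
      have h5 : Real.pi * (ρ * R) ≤ Real.pi * (ρ ^ 2 * R) := by gcongr
      have h6 : 0 ≤ Real.pi * (ρ ^ 2 * R) := by positivity
      nlinarith
    · have e1 : volume.real A ≤ Real.pi * (R + ρ) ^ 2 := by
        rw [← real_volume_closedBall _ (by linarith)]
        exact measureReal_mono Set.sdiff_subset measure_closedBall_lt_top.ne
      have h3 : (R + ρ) ^ 2 ≤ 4 * ρ ^ 2 * R := by
        have h4 : (R + ρ) ^ 2 ≤ (2 * ρ) ^ 2 := by
          apply pow_le_pow_left₀ (by linarith)
          linarith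
        have h5 : 4 * ρ ^ 2 ≤ 4 * ρ ^ 2 * R := le_mul_of_one_le_right (by positivity) hR1
        nlinarith
      have h6 : 0 ≤ ρ ^ 2 * R := by positivity
      calc volume.real A ≤ Real.pi * (R + ρ) ^ 2 := e1
        _ ≤ Real.pi * (4 * ρ ^ 2 * R) := by gcongr
        _ ≤ 8 * Real.pi * ρ ^ 2 * R := by nlinarith [mul_nonneg hpi.le h6]
  have hB2 : ∫ w, B.indicator (fun _ => (1 : ℝ)) w ≤ Real.pi * ρ ^ 2 * R := by
    rw [integral_indicator_const _ hBm, smul_eq_mul, mul_one, hB,
      real_volume_closedBall _ (by linarith)]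
    exact le_mul_of_one_le_right (by positivity) hR1
  -- the integral over the disc
  have hf1 : IntegrableOn f (Metric.closedBall (0 : ℂ) R) := by
    refine Measure.integrableOn_of_bounded (M := 1) measure_closedBall_lt_top.ne
      hf.aestronglyMeasurable ?_
    exact Filter.Eventually.of_forall hb
  have hD' : MeasurableSet (Metric.closedBall (0 : ℂ) R) := Metric.isClosed_closedBall.measurableSet
  have hf2 : Integrable ((Metric.closedBall (0 : ℂ) R).indicator f) :=
    (integrable_indicator_iff hD').2 hf1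
  rw [← g2, ← integral_indicator hD', ← integral_sub g1 hf2]
  refine (norm_integral_le_integral_norm _).trans ?_
  have hle : ∀ w : ℂ, ‖∑ z ∈ S, (cell t c d r z).indicator (fun _ => f (tc z)) w -
      (Metric.closedBall (0 : ℂ) R).indicator f w‖ ≤
      ∑ z ∈ S, (cell t c d r z).indicator (fun _ => L * (1 / Real.sqrt (nm z))) w +
      (A.indicator (fun _ => (1 : ℝ)) w + B.indicator (fun _ => (1 : ℝ)) w) := by
    intro w
    rw [sum_indicator_cell, sum_indicator_cell]
    have hA0 : 0 ≤ A.indicator (fun _ => (1 : ℝ)) w := Set.indicator_nonneg (fun _ _ => zero_le_one) _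
    have hB0 : 0 ≤ B.indicator (fun _ => (1 : ℝ)) w := Set.indicator_nonneg (fun _ _ => zero_le_one) _
    have hdd := norm_sub_fl (r := r) hD hd w
    rw [← hρ] at hdd
    have hn1 : ‖w‖ ≤ ‖tc (fl t c d r w)‖ + ρ := by
      have := norm_sub_norm_le w (tc (fl t c d r w)); linarith
    have hn2 : ‖tc (fl t c d r w)‖ ≤ ‖w‖ + ρ := by
      have := norm_sub_norm_le (tc (fl t c d r w)) w
      rw [norm_sub_rev] at this
      linarith
    split_ifs with h
    · have h' := h
      rw [hS, Finset.mem_filter, mem_ball hD] at h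
      by_cases hw : w ∈ Metric.closedBall (0 : ℂ) R
      · rw [Set.indicator_of_mem hw, norm_sub_rev]
        have h1 := hLip w ((one_le_nm hD).1 h.1.1)
        rw [div_eq_mul_one_div] at h1
        linarith
      · rw [Set.indicator_of_notMem hw, sub_zero]
        have h3 : w ∈ A := by
          rw [hA, Set.mem_sdiff, Metric.mem_closedBall, dist_zero_right, Metric.mem_ball,
            dist_zero_right]
          rw [Metric.mem_closedBall, dist_zero_right, not_le] at hw
          refine ⟨?_, by linarith⟩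
          have h4 : ‖tc (fl t c d r w)‖ ≤ R := by
            rw [norm_tc hD, hR]
            exact Real.sqrt_le_sqrt h.1.2
          linarith
        rw [Set.indicator_of_mem h3]
        have h5 := hb (tc (fl t c d r w))
        have h6 : 0 ≤ L * (1 / Real.sqrt (nm (fl t c d r w))) := by positivity
        linarith
    · rw [zero_sub, norm_neg]
      by_cases hw : w ∈ Metric.closedBall (0 : ℂ) R
      · rw [Set.indicator_of_mem hw]
        rw [hS, Finset.mem_filter, mem_ball hD, not_and_or, not_and_or, not_le, not_le] at h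
        rcases h with (h | h) | h
        · have h3 : w ∈ B := by
            rw [hB, Metric.mem_closedBall, dist_zero_right]
            have h4 : fl t c d r w = 0 := (nm_eq_zero hD).1 (by omega)
            rw [h4] at hn1
            have h0 : tc (0 : Qd t c) = 0 := by
              have := tc_intCast (t := t) (c := c) 0
              simpa using this
            rw [h0, norm_zero, zero_add] at hn1
            exact hn1
          rw [Set.indicator_of_mem h3]
          have := hb w
          linarith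
        · have h3 : w ∈ A := by
            rw [hA, Set.mem_sdiff, Metric.mem_closedBall, dist_zero_right, Metric.mem_ball,
              dist_zero_right]
            rw [Metric.mem_closedBall, dist_zero_right] at hw
            refine ⟨by linarith, ?_⟩
            have h4 : R ≤ ‖tc (fl t c d r w)‖ := by
              rw [norm_tc hD, hR]
              exact Real.sqrt_le_sqrt h.le
            linarith
          rw [Set.indicator_of_mem h3]
          have := hb w
          linarith
        · exact absurd (fl_lat w) h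
      · rw [Set.indicator_of_notMem hw, norm_zero]
        linarith
  calc ∫ w, ‖∑ z ∈ S, (cell t c d r z).indicator (fun _ => f (tc z)) w -
      (Metric.closedBall (0 : ℂ) R).indicator f w‖
      ≤ ∫ w, (∑ z ∈ S, (cell t c d r z).indicator (fun _ => L * (1 / Real.sqrt (nm z))) w +
      (A.indicator (fun _ => (1 : ℝ)) w + B.indicator (fun _ => (1 : ℝ)) w)) :=
        integral_mono (g1.sub hf2).norm (k1.add hABI) hle
    _ = VV t c d r • ∑ z ∈ S, L * (1 / Real.sqrt (nm z)) +
        ((∫ w, A.indicator (fun _ => (1 : ℝ)) w) + ∫ w, B.indicator (fun _ => (1 : ℝ)) w) := by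
        rw [integral_add k1 hABI, k2, integral_add hAI hBI]
    _ ≤ _ := by
        rw [← Finset.mul_sum, smul_eq_mul]
        linarith

end Pool.Agent.W397.GA
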