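import Pool.Agent.W64.GM.Ang2
import Pool.Agent.W397.GA.Area

/-!
Project GA (helper78), task GA-8 (helper397): angular sums over lattices for small frequencies.
Adapted from W64/GM/Ang2.
-/

set_option autoImplicit false

namespace Pool.Agent.W397.GA

open Finset MeasureTheory
open Pool.Agent.W78.GA
open Pool.Agent.W64.GM (uv measurable_uv norm_uv_le norm_uv zpow_lip uv_lip int_disc)

/-- one half of the sum of the reciprocals of the absolute values -/
lemma sum_half {α : Type} (s : Finset α) (N : ℕ) (u v : α → ℤ)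
    (hinj : ∀ z ∈ s, ∀ z' ∈ s, u z = u z' → v z = v z' → z = z')
    (hvu : ∀ z ∈ s, |v z| ≤ |u z|) (hu0 : ∀ z ∈ s, u z ≠ 0) (huN : ∀ z ∈ s, |u z| ≤ N) :
    ∑ z ∈ s, 1 / ((|u z| : ℤ) : ℝ) ≤ 6 * N := by
  classical
  have hmaps : ∀ z ∈ s, u z ∈ (Icc (-(N : ℤ)) N).erase 0 := by
    intro z hz
    rw [Finset.mem_erase, Finset.mem_Icc]
    exact ⟨hu0 z hz, abs_le.1 (huN z hz)⟩
  rw [← Finset.sum_fiberwise_of_maps_to hmaps]
  have h1 : ∀ x ∈ (Icc (-(N : ℤ)) N).erase 0,
      ∑ z ∈ s.filter (fun z => u z = x), 1 / ((|u z| : ℤ) : ℝ) ≤ 3 := by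
    intro x hx
    rw [Finset.mem_erase] at hx
    have h2 : ∀ z ∈ s.filter (fun z => u z = x), 1 / ((|u z| : ℤ) : ℝ) = 1 / ((|x| : ℤ) : ℝ) := by
      intro z hz
      rw [(Finset.mem_filter.1 hz).2]
    rw [Finset.sum_congr rfl h2, Finset.sum_const, nsmul_eq_mul]
    have h3 : (s.filter (fun z => u z = x)).card ≤ (Icc (-|x|) |x|).card := by
      apply Finset.card_le_card_of_injOn v
      · intro z hz
        rw [Finset.mem_coe, Finset.mem_filter] at hz
        rw [Finset.mem_coe, Finset.mem_Icc, ← abs_le, ← hz.2]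
        exact hvu z hz.1
      · intro z hz z' hz' h
        rw [Finset.mem_coe, Finset.mem_filter] at hz hz'
        exact hinj z hz.1 z' hz'.1 (hz.2.trans hz'.2.symm) h
    rw [Int.card_Icc] at h3
    have hx1 : 1 ≤ |x| := Int.one_le_abs hx.1
    have h4 : ((s.filter (fun z => u z = x)).card : ℝ) ≤ 3 * ((|x| : ℤ) : ℝ) := by
      have h5 : ((s.filter (fun z => u z = x)).card : ℤ) ≤ 3 * |x| := by
        have : ((|x| + 1 - -|x|).toNat : ℤ) = |x| + 1 - -|x| := Int.toNat_of_nonneg (by omega)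
        have h6 : ((s.filter (fun z => u z = x)).card : ℤ) ≤ ((|x| + 1 - -|x|).toNat : ℤ) := by
          exact_mod_cast h3
        omega
      exact_mod_cast h5
    have hx2 : (0 : ℝ) < ((|x| : ℤ) : ℝ) := by exact_mod_cast (by omega : 0 < |x|)
    rw [mul_one_div, div_le_iff₀ hx2]
    exact h4
  refine (Finset.sum_le_sum h1).trans ?_
  rw [Finset.sum_const, nsmul_eq_mul]
  have h5 : ((Icc (-(N : ℤ)) N).erase 0).card = 2 * N := by
    rw [Finset.card_erase_of_mem (by rw [Finset.mem_Icc]; omega), Int.card_Icc]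
    omega
  rw [h5]
  push_cast
  linarith

variable {t c : ℤ} {d : ℕ} {r : ℤ}

lemma one_le_c (hD : t ^ 2 < 4 * c) : (1 : ℝ) ≤ c := by
  have : 1 ≤ c := by nlinarith [sq_nonneg t]
  exact_mod_cast this

lemma re_sq_le (hD : t ^ 2 < 4 * c) (z : Qd t c) : (z.re : ℝ) ^ 2 ≤ 4 * c * nm z := by
  rw [nm_castR hD]
  have h3 := three_le_disc hD
  nlinarith [sq_nonneg (2 * (c : ℝ) * z.im + t * z.re), sq_nonneg (z.re : ℝ)]

lemma im_sq_le (hD : t ^ 2 < 4 * c) (z : Qd t c) : (z.im : ℝ) ^ 2 ≤ 4 * c * nm z := by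
  have h3 := three_le_disc hD
  have hc := one_le_c hD
  have h0 : (0 : ℝ) ≤ nm z := by positivity
  have h4 : (z.im : ℝ) ^ 2 ≤ 4 * nm z := by
    rw [nm_castR hD]
    nlinarith [sq_nonneg (2 * (z.re : ℝ) + t * z.im), sq_nonneg (z.im : ℝ)]
  nlinarith

theorem sum_inv (hD : t ^ 2 < 4 * c) (X : ℝ) :
    ∑ z ∈ ball t c X, 1 / Real.sqrt (nm z) ≤ 48 * c * Real.sqrt X := by
  have hc := one_le_c hD
  obtain ⟨κ, hκ⟩ : ∃ κ : ℝ, κ = Real.sqrt (4 * c) := ⟨_, rfl⟩
  have hκ0 : 0 < κ := by rw [hκ]; exact Real.sqrt_pos.2 (by linarith)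
  have hκ2 : κ * κ = 4 * c := by rw [hκ]; exact Real.mul_self_sqrt (by linarith)
  obtain ⟨N, hN⟩ : ∃ N : ℕ, N = ⌊κ * Real.sqrt X⌋₊ := ⟨_, rfl⟩
  have hNX : (N : ℝ) ≤ κ * Real.sqrt X := by
    rw [hN]; exact Nat.floor_le (by positivity)
  have hsq : ∀ z : Qd t c, |(z.re : ℝ)| ≤ κ * Real.sqrt (nm z) ∧
      |(z.im : ℝ)| ≤ κ * Real.sqrt (nm z) := by
    intro z
    have e : κ * Real.sqrt (nm z) = Real.sqrt (4 * c * nm z) := by
      rw [hκ, ← Real.sqrt_mul (by linarith)]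
    rw [e]
    exact ⟨Real.abs_le_sqrt (re_sq_le hD z), Real.abs_le_sqrt (im_sq_le hD z)⟩
  have hbd : ∀ (x : ℤ) (z : Qd t c), z ∈ ball t c X → |(x : ℝ)| ≤ κ * Real.sqrt (nm z) →
      |x| ≤ N := by
    intro x z hz hx
    rw [mem_ball hD] at hz
    have h1 : |(x : ℝ)| ≤ κ * Real.sqrt X := by
      refine hx.trans ?_
      have := Real.sqrt_le_sqrt hz.2
      gcongr
    have h2 : ((x.natAbs : ℕ) : ℝ) ≤ κ * Real.sqrt X := by
      rw [Nat.cast_natAbs]; push_cast; exact h1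
    have h3 := Nat.le_floor h2
    rw [← hN] at h3
    rw [Int.abs_eq_natAbs]
    exact_mod_cast h3
  have hre : ∀ z ∈ ball t c X, |z.re| ≤ N := fun z hz => hbd _ z hz (hsq z).1
  have him : ∀ z ∈ ball t c X, |z.im| ≤ N := fun z hz => hbd _ z hz (hsq z).2
  have hinv : ∀ (x : ℤ) (z : Qd t c), z ∈ ball t c X → x ≠ 0 →
      |(x : ℝ)| ≤ κ * Real.sqrt (nm z) → 1 / Real.sqrt (nm z) ≤ κ * (1 / ((|x| : ℤ) : ℝ)) := by
    intro x z hz hx0 hx
    rw [mem_ball hD] at hz
    have h2 : (0 : ℝ) < ((|x| : ℤ) : ℝ) := by exact_mod_cast abs_pos.2 hx0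
    have h3 : (0 : ℝ) < Real.sqrt (nm z) := Real.sqrt_pos.2 (by exact_mod_cast hz.1)
    rw [mul_one_div, div_le_div_iff₀ h3 h2, one_mul]
    push_cast
    exact hx
  rw [← Finset.sum_filter_add_sum_filter_not (ball t c X) (fun z => |z.im| ≤ |z.re|)]
  have hz0 : ∀ z ∈ ball t c X, z.re ≠ 0 ∨ z.im ≠ 0 := by
    intro z hz
    rw [mem_ball hD] at hz
    by_contra h
    push Not at h
    have : z = 0 := QuadraticAlgebra.ext h.1 h.2
    exact ((one_le_nm hD).1 hz.1) this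
  have hA : ∑ z ∈ (ball t c X).filter (fun z => |z.im| ≤ |z.re|), 1 / Real.sqrt (nm z) ≤
      κ * (6 * N) := by
    have h0 : ∀ z ∈ (ball t c X).filter (fun z => |z.im| ≤ |z.re|), z.re ≠ 0 := by
      intro z hz h
      rw [Finset.mem_filter] at hz
      rcases hz0 z hz.1 with h1 | h1
      · exact h1 h
      · have := hz.2
        rw [h, abs_zero] at this
        exact h1 (abs_eq_zero.1 (le_antisymm this (abs_nonneg _)))
    refine le_trans (Finset.sum_le_sum (g := fun z : Qd t c => κ * (1 / ((|z.re| : ℤ) : ℝ))) ?_) ?_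
    · intro z hz
      exact hinv z.re z (Finset.mem_filter.1 hz).1 (h0 z hz) (hsq z).1
    · rw [← Finset.mul_sum]
      refine mul_le_mul_of_nonneg_left ?_ hκ0.le
      exact sum_half (α := Qd t c) _ N (fun z : Qd t c => z.re) (fun z : Qd t c => z.im)
        (fun z _ z' _ h1 h2 => QuadraticAlgebra.ext h1 h2)
        (fun z hz => (Finset.mem_filter.1 hz).2) h0
        (fun z hz => hre z (Finset.mem_filter.1 hz).1)
  have hB : ∑ z ∈ (ball t c X).filter (fun z => ¬ |z.im| ≤ |z.re|), 1 / Real.sqrt (nm z) ≤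
      κ * (6 * N) := by
    have h0 : ∀ z ∈ (ball t c X).filter (fun z => ¬ |z.im| ≤ |z.re|), z.im ≠ 0 := by
      intro z hz h
      rw [Finset.mem_filter] at hz
      apply hz.2
      rw [h, abs_zero]
      exact abs_nonneg _
    refine le_trans (Finset.sum_le_sum (g := fun z : Qd t c => κ * (1 / ((|z.im| : ℤ) : ℝ))) ?_) ?_
    · intro z hz
      exact hinv z.im z (Finset.mem_filter.1 hz).1 (h0 z hz) (hsq z).2
    · rw [← Finset.mul_sum]
      refine mul_le_mul_of_nonneg_left ?_ hκ0.le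
      exact sum_half (α := Qd t c) _ N (fun z : Qd t c => z.im) (fun z : Qd t c => z.re)
        (fun z _ z' _ h1 h2 => QuadraticAlgebra.ext h2 h1)
        (fun z hz => (not_le.1 (Finset.mem_filter.1 hz).2).le) h0
        (fun z hz => him z (Finset.mem_filter.1 hz).1)
  have h5 : κ * N ≤ κ * (κ * Real.sqrt X) := by gcongr
  have h7 : κ * (6 * N) ≤ 24 * c * Real.sqrt X := by
    calc κ * (6 * N) = 6 * (κ * N) := by ring
      _ ≤ 6 * (κ * (κ * Real.sqrt X)) := by gcongr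
      _ = 6 * (κ * κ) * Real.sqrt X := by ring
      _ = 24 * c * Real.sqrt X := by rw [hκ2]; ring
  linarith

/-- task GA-8, first part -/
theorem ang2 (hD : t ^ 2 < 4 * c) : S_ANG2 t c := by
  intro d r hd
  have hV := VV_pos (r := r) hD hd
  have hρ := one_le_rho (r := r) hD hd
  have hc := one_le_c hD
  obtain ⟨ρ, hρe⟩ : ∃ ρ, ρ = rho t c d r := ⟨_, rfl⟩
  rw [← hρe] at hρ
  refine ⟨2 * ρ * (48 * c) + 9 * Real.pi * ρ ^ 2 / VV t c d r, by positivity,
    fun X k hX hk => ?_⟩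
  have hk1 : (1 : ℝ) ≤ |(k : ℝ)| := by
    have : 1 ≤ |k| := Int.one_le_abs hk
    exact_mod_cast this
  have h := comp (r := r) hD hd (fun w => (uv w) ^ k) (by
      exact (measurable_uv.pow_const k)) (by
      intro w
      by_cases hw : w = 0
      · subst hw
        have : uv 0 = 0 := by simp [uv]
        rw [this, zero_zpow k hk]
        simp
      · rw [norm_zpow, norm_uv hw, one_zpow]) (2 * ρ * |(k : ℝ)|) (by positivity) (by
      intro w hw
      have hz : tc (fl t c d r w) ≠ 0 := tc_ne_zero hD hw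
      have hw0 : w ≠ 0 := by
        rintro rfl
        apply hw
        have e1 : cb t c 0 = 0 := by simp [cb]
        have e2 : ca t c d r 0 = 0 := by simp [ca, e1]
        apply QuadraticAlgebra.ext
        · simp [fl, e1, e2]
        · simp [fl, e1]
      refine (zpow_lip _ _ (norm_uv hw0) (norm_uv hz) k).trans ?_
      have h1 := uv_lip hz w hw0
      have h2 := norm_sub_fl (r := r) hD hd w
      rw [← hρe] at h2
      have h3 : 0 < ‖tc (fl t c d r w)‖ := norm_pos_iff.2 hz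
      rw [← norm_tc hD]
      calc |(k : ℝ)| * ‖uv w - uv (tc (fl t c d r w))‖
          ≤ |(k : ℝ)| * (2 * ‖w - tc (fl t c d r w)‖ / ‖tc (fl t c d r w)‖) :=
            mul_le_mul_of_nonneg_left h1 (abs_nonneg _)
        _ ≤ |(k : ℝ)| * (2 * ρ / ‖tc (fl t c d r w)‖) := by
            apply mul_le_mul_of_nonneg_left _ (abs_nonneg _)
            apply div_le_div_of_nonneg_right _ h3.le
            linarith
        _ = _ := by ring) X hX
  rw [int_disc k hk, sub_zero, ← hρe, norm_smul, Real.norm_of_nonneg hV.le] at h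
  have h1 : ∑ z ∈ (ball t c X).filter (lat d r), 1 / Real.sqrt (nm z) ≤ 48 * c * Real.sqrt X := by
    refine le_trans ?_ (sum_inv hD X)
    exact Finset.sum_le_sum_of_subset_of_nonneg (Finset.filter_subset _ _)
      (fun _ _ _ => by positivity)
  have h2 : ‖∑ z ∈ (ball t c X).filter (lat d r), uv (tc z) ^ k‖ ≤
      2 * ρ * |(k : ℝ)| * (48 * c * Real.sqrt X) + 9 * Real.pi * ρ ^ 2 * Real.sqrt X / VV t c d r := by
    rw [← mul_le_mul_iff_right₀ hV]
    refine h.trans ?_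
    rw [mul_add, mul_div_cancel₀ _ hV.ne']
    gcongr
  have h3 : 9 * Real.pi * ρ ^ 2 * Real.sqrt X / VV t c d r ≤
      9 * Real.pi * ρ ^ 2 / VV t c d r * (|(k : ℝ)| * Real.sqrt X) := by
    have h4 : Real.sqrt X ≤ |(k : ℝ)| * Real.sqrt X :=
      le_mul_of_one_le_left (Real.sqrt_nonneg _) hk1
    calc 9 * Real.pi * ρ ^ 2 * Real.sqrt X / VV t c d r
        = 9 * Real.pi * ρ ^ 2 / VV t c d r * Real.sqrt X := by ring
      _ ≤ _ := by gcongr
  calc ‖∑ z ∈ (ball t c X).filter (lat d r), ps k z‖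
      = ‖∑ z ∈ (ball t c X).filter (lat d r), uv (tc z) ^ k‖ := rfl
    _ ≤ 2 * ρ * |(k : ℝ)| * (48 * c * Real.sqrt X) +
        9 * Real.pi * ρ ^ 2 / VV t c d r * (|(k : ℝ)| * Real.sqrt X) := by linarith
    _ = _ := by ring

/-- task GA-8, second part -/
theorem ang_of : S_ANG1 t c → S_ANG2 t c → S_ANG t c := by
  intro h1 h2 d r M hd
  obtain ⟨η, hη, C1, hC1, h1⟩ := h1 d r M hd
  obtain ⟨C2, hC2, h2⟩ := h2 d r hd
  refine ⟨min η (1 / 4), by positivity, 2 * C1 + C2, by positivity, fun X k hX hk hkX => ?_⟩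
  have hX0 : 0 < X := by linarith
  set e : ℝ := min η (1 / 4) with he
  have hk1 : (1 : ℝ) ≤ |(k : ℝ)| := by
    have : 1 ≤ |k| := Int.one_le_abs hk
    exact_mod_cast this
  have hpos : 0 < X ^ (1 - e) := Real.rpow_pos_of_pos hX0 _
  rcases le_or_gt (X ^ (1 / 4 : ℝ)) |(k : ℝ)| with h | h
  · have h3 := h1 X k hX hk hkX
    have h4 : X ^ (1 - η) ≤ X ^ (1 - e) := by
      apply Real.rpow_le_rpow_of_exponent_le hX
      have := min_le_left η (1 / 4)
      linarith
    have h5 : X / |(k : ℝ)| ≤ X ^ (1 - e) := by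
      calc X / |(k : ℝ)| ≤ X / X ^ (1 / 4 : ℝ) :=
            div_le_div_of_nonneg_left hX0.le (Real.rpow_pos_of_pos hX0 _) h
        _ = X ^ (1 - 1 / 4 : ℝ) := by
            rw [Real.rpow_sub hX0, Real.rpow_one]
        _ ≤ X ^ (1 - e) := by
            apply Real.rpow_le_rpow_of_exponent_le hX
            have := min_le_right η (1 / 4)
            linarith
    calc _ ≤ C1 * (X ^ (1 - η) + X / |(k : ℝ)|) := h3
      _ ≤ C1 * (X ^ (1 - e) + X ^ (1 - e)) := by
          apply mul_le_mul_of_nonneg_left _ hC1.le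
          linarith
      _ ≤ (2 * C1 + C2) * X ^ (1 - e) := by nlinarith
  · have h3 := h2 X k hX hk
    have h5 : |(k : ℝ)| * Real.sqrt X ≤ X ^ (1 - e) := by
      calc |(k : ℝ)| * Real.sqrt X ≤ X ^ (1 / 4 : ℝ) * X ^ (1 / 2 : ℝ) := by
            rw [Real.sqrt_eq_rpow]
            exact mul_le_mul_of_nonneg_right h.le (Real.rpow_nonneg hX0.le _)
        _ = X ^ (1 - 1 / 4 : ℝ) := by
            rw [← Real.rpow_add hX0]; norm_num
        _ ≤ X ^ (1 - e) := by
            apply Real.rpow_le_rpow_of_exponent_le hX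
            have := min_le_right η (1 / 4)
            linarith
    calc _ ≤ C2 * |(k : ℝ)| * Real.sqrt X := h3
      _ = C2 * (|(k : ℝ)| * Real.sqrt X) := by ring
      _ ≤ C2 * X ^ (1 - e) := mul_le_mul_of_nonneg_left h5 hC2.le
      _ ≤ (2 * C1 + C2) * X ^ (1 - e) := by nlinarith

end Pool.Agent.W397.GA
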