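import Pool.Agent.W78.GA.Basic
import Pool.Agent.H376R2.MR.Cnt

/-! Project GA (helper78), task GA-2: few frequencies are bad at the last level (abstract
machine, second version). Adapted from W40/GM/Cnt.lean, H970R2/X/Cnt.lean and
H376R2/MR/Cnt.lean. -/

set_option autoImplicit false

namespace Pool.Agent.W397.GA
open Finset Filter Pool.Agent.H376R2.MR Pool.Agent.W78.GA

/-- the final comparison of exponents -/
theorem cnt_asymA (α C : ℝ) (hα : 0 < α) (hC : 1 ≤ C) : ∃ T₀ : ℝ, 1 ≤ T₀ ∧ ∀ T : ℝ, T₀ ≤ T →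
    T * (Real.exp (2 * α * (T + T ^ (1 / 2 : ℝ))) *
      (C * Real.exp (16 * T ^ (11 / 12 : ℝ) * Real.log (2 * C * T)))) ≤
      Real.exp (4 * α * T) := by
  have hid : Tendsto (fun T : ℝ => T) atTop atTop := tendsto_id
  have h1 : (fun T : ℝ => Real.log T) =o[atTop] (fun T : ℝ => T) := Real.isLittleO_log_id_atTop
  have h2 : (fun T : ℝ => T ^ (1 / 2 : ℝ)) =o[atTop] (fun T : ℝ => T) :=
    cnt_rpow_little (by norm_num)
  have h3 : (fun T : ℝ => T ^ (11 / 12 : ℝ) * Real.log T) =o[atTop] (fun T : ℝ => T) := by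
    have h := isLittleO_log_rpow_atTop (r := (1 / 12 : ℝ)) (by norm_num)
    have h' := (Asymptotics.isBigO_refl (fun T : ℝ => T ^ (11 / 12 : ℝ)) atTop).mul_isLittleO h
    refine h'.congr' (EventuallyEq.refl _ _) ?_
    filter_upwards [eventually_gt_atTop (0 : ℝ)] with T hT
    rw [← Real.rpow_add hT]
    norm_num
  have h4 : (fun T : ℝ => T ^ (11 / 12 : ℝ)) =o[atTop] (fun T : ℝ => T) :=
    cnt_rpow_little (by norm_num)
  have hlC : 0 < Real.log (2 * C) := Real.log_pos (by linarith)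
  have e1 := h1.bound (show 0 < α / 8 by positivity)
  have e2 := h2.bound (show (0 : ℝ) < 1 / 8 by positivity)
  have e3 := h3.bound (show 0 < α / 128 by positivity)
  have e4 := h4.bound (show 0 < α / (128 * Real.log (2 * C)) by positivity)
  have e5 : ∀ᶠ T : ℝ in atTop, Real.log C ≤ (α / 8) * T := by
    have : Tendsto (fun T : ℝ => (α / 8) * T) atTop atTop :=
      Tendsto.const_mul_atTop (by positivity) hid
    exact this.eventually_ge_atTop _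
  obtain ⟨T₀, hT₀⟩ := (((((e1.and e2).and e3).and e4).and e5)).exists_forall_of_atTop
  refine ⟨max 1 T₀, le_max_left _ _, fun T hT => ?_⟩
  have hT1 : (1 : ℝ) ≤ T := le_trans (le_max_left _ _) hT
  have hT0 : (0 : ℝ) < T := by linarith
  obtain ⟨⟨⟨⟨g1, g2⟩, g3⟩, g4⟩, g5⟩ := hT₀ T (le_trans (le_max_right _ _) hT)
  rw [Real.norm_of_nonneg (Real.log_nonneg hT1), Real.norm_of_nonneg hT0.le] at g1
  rw [Real.norm_of_nonneg (by positivity), Real.norm_of_nonneg hT0.le] at g2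
  rw [Real.norm_of_nonneg (mul_nonneg (by positivity) (Real.log_nonneg hT1)),
    Real.norm_of_nonneg hT0.le] at g3
  rw [Real.norm_of_nonneg (by positivity), Real.norm_of_nonneg hT0.le] at g4
  have hC0 : 0 < C := by linarith
  have hl4 : Real.log (2 * C * T) = Real.log (2 * C) + Real.log T :=
    Real.log_mul (by positivity) hT0.ne'
  have hexp : C = Real.exp (Real.log C) := (Real.exp_log hC0).symm
  have hp : 0 ≤ T ^ (11 / 12 : ℝ) := by positivity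
  calc T * (Real.exp (2 * α * (T + T ^ (1 / 2 : ℝ))) *
      (C * Real.exp (16 * T ^ (11 / 12 : ℝ) * Real.log (2 * C * T))))
      = Real.exp (Real.log T + (2 * α * (T + T ^ (1 / 2 : ℝ)) +
        (Real.log C + 16 * T ^ (11 / 12 : ℝ) * Real.log (2 * C * T)))) := by
        rw [Real.exp_add (Real.log T), Real.exp_add (2 * α * (T + T ^ (1 / 2 : ℝ))),
          Real.exp_add (Real.log C), ← hexp, Real.exp_log hT0]
    _ ≤ Real.exp (4 * α * T) := by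
        apply Real.exp_le_exp.mpr
        rw [hl4]
        have k0 : T ^ (11 / 12 : ℝ) * Real.log (2 * C) ≤ α / 128 * T := by
          calc T ^ (11 / 12 : ℝ) * Real.log (2 * C)
              ≤ (α / (128 * Real.log (2 * C)) * T) * Real.log (2 * C) := by gcongr
            _ = α / 128 * T := by field_simp
        have k1 : 16 * T ^ (11 / 12 : ℝ) * (Real.log (2 * C) + Real.log T) =
            16 * (T ^ (11 / 12 : ℝ) * Real.log (2 * C)) +
              16 * (T ^ (11 / 12 : ℝ) * Real.log T) := by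
          ring
        have k2 : 2 * α * T ^ (1 / 2 : ℝ) ≤ 2 * α * (1 / 8 * T) := by gcongr
        nlinarith [mul_pos hα hT0]

/-- the bad frequencies at one cell -/
theorem cnt_oneA (P : ℕ → ℕ → ℤ → ℂ) {C : ℝ} (hC : 1 ≤ C)
    (hmom : ∀ (H r ℓ K : ℕ), 1 ≤ H → 1 ≤ K → (K : ℝ) ≤ Real.exp ((r : ℝ) * ℓ / H) →
    ∑ k ∈ FK K, ‖P H r k‖ ^ (2 * ℓ) ≤ C ^ (ℓ + 1) * (ℓ.factorial : ℝ) ^ 8)
    {α a T Y : ℝ} (ha0 : 0 ≤ a) (haα : a ≤ α) (hT : T = Real.log Y) (hY : 0 < Y) (hT1 : 1 ≤ T)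
    {l r K : ℕ} (hl : 1 ≤ l) (hr1 : l ^ 2 ≤ r) (hr2 : r ≤ l ^ 3) (hl4 : (l : ℝ) ^ 4 ≤ T)
    (hl12 : T < (l : ℝ) ^ 12) (hK : 1 ≤ K) (hKY : (K : ℝ) ≤ Y) :
    (open scoped Classical in
      (((FK K).filter (fun k => ¬ ‖P l r k‖ ≤ Real.exp (-(a * r / l)))).card : ℝ)) ≤
      Real.exp (2 * α * (T + T ^ (1 / 2 : ℝ))) *
      (C * Real.exp (16 * T ^ (11 / 12 : ℝ) * Real.log (2 * C * T))) := by
  classical
  have hC0 : 0 < C := by linarith
  have hlR : (1 : ℝ) ≤ l := by exact_mod_cast hl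
  have hl0 : (0 : ℝ) < l := by linarith
  have hT0 : 0 < T := by linarith
  have hr1R : (l : ℝ) ^ 2 ≤ r := by exact_mod_cast hr1
  have hr2R : (r : ℝ) ≤ (l : ℝ) ^ 3 := by exact_mod_cast hr2
  have hr0 : (0 : ℝ) < r := lt_of_lt_of_le (by positivity) hr1R
  obtain ⟨ℓ, hℓ⟩ : ∃ ℓ : ℕ, ℓ = ⌈T * l / r⌉₊ := ⟨_, rfl⟩
  have hℓ1 : T * l / r ≤ ℓ := by rw [hℓ]; exact Nat.le_ceil _
  have hℓ2 : (ℓ : ℝ) < T * l / r + 1 := by rw [hℓ]; exact Nat.ceil_lt_add_one (by positivity)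
  have hℓpos : (0 : ℝ) < ℓ := lt_of_lt_of_le (by positivity) hℓ1
  -- r ℓ / l
  have hA : T ≤ (r : ℝ) * ℓ / l := by
    rw [le_div_iff₀ hl0]
    rw [div_le_iff₀ hr0] at hℓ1
    linarith
  have hl2 : (l : ℝ) ^ 2 ≤ T ^ (1 / 2 : ℝ) := by
    rw [← Real.sqrt_eq_rpow]
    apply Real.le_sqrt_of_sq_le
    calc ((l : ℝ) ^ 2) ^ 2 = (l : ℝ) ^ 4 := by ring
      _ ≤ T := hl4
  have hB : (r : ℝ) * ℓ / l ≤ T + T ^ (1 / 2 : ℝ) := by
    have h1 : (r : ℝ) * ℓ ≤ T * l + r := by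
      have := mul_le_mul_of_nonneg_left hℓ2.le hr0.le
      have h2 : (r : ℝ) * (T * l / r + 1) = T * l + r := by field_simp
      linarith
    rw [div_le_iff₀ hl0]
    have h3 : (r : ℝ) ≤ (l : ℝ) ^ 2 * l := by
      calc (r : ℝ) ≤ (l : ℝ) ^ 3 := hr2R
        _ = (l : ℝ) ^ 2 * l := by ring
    have h4 : (l : ℝ) ^ 2 * l ≤ T ^ (1 / 2 : ℝ) * l := by gcongr
    nlinarith
  -- size of ℓ
  have hl12' : T ^ (1 / 12 : ℝ) ≤ l := by
    have h1 : T ^ (1 / 12 : ℝ) ≤ ((l : ℝ) ^ 12) ^ (1 / 12 : ℝ) :=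
      Real.rpow_le_rpow hT0.le hl12.le (by norm_num)
    have h2 : ((l : ℝ) ^ 12) ^ (1 / 12 : ℝ) = l := by
      rw [← Real.rpow_natCast, ← Real.rpow_mul hl0.le]
      norm_num
    rwa [h2] at h1
  have hpow1 : (1 : ℝ) ≤ T ^ (11 / 12 : ℝ) := Real.one_le_rpow hT1 (by norm_num)
  have hC1 : T * l / r ≤ T ^ (11 / 12 : ℝ) := by
    rw [div_le_iff₀ hr0]
    have h1 : T = T ^ (11 / 12 : ℝ) * T ^ (1 / 12 : ℝ) := by
      rw [← Real.rpow_add hT0]; norm_num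
    calc T * l = T ^ (11 / 12 : ℝ) * (T ^ (1 / 12 : ℝ) * l) := by rw [← mul_assoc, ← h1]
      _ ≤ T ^ (11 / 12 : ℝ) * (l * l) := by gcongr
      _ = T ^ (11 / 12 : ℝ) * (l : ℝ) ^ 2 := by ring
      _ ≤ T ^ (11 / 12 : ℝ) * r := by gcongr
  have hℓ3 : (ℓ : ℝ) ≤ 2 * T ^ (11 / 12 : ℝ) := by linarith
  have hTT : T ^ (11 / 12 : ℝ) ≤ T := by
    calc T ^ (11 / 12 : ℝ) ≤ T ^ (1 : ℝ) := Real.rpow_le_rpow_of_exponent_le hT1 (by norm_num)
      _ = T := Real.rpow_one T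
  have hℓ4 : (ℓ : ℝ) ≤ 2 * T := by linarith
  -- the moment
  have hKe : (K : ℝ) ≤ Real.exp ((r : ℝ) * ℓ / l) := by
    calc (K : ℝ) ≤ Y := hKY
      _ = Real.exp T := by rw [hT, Real.exp_log hY]
      _ ≤ _ := Real.exp_le_exp.mpr hA
  have hm := hmom l r ℓ K hl hK hKe
  set B := (FK K).filter (fun k => ¬ ‖P l r k‖ ≤ Real.exp (-(a * r / l))) with hBdef
  have hlow : (B.card : ℝ) * Real.exp (-(2 * a * (r * ℓ / l))) ≤
      ∑ k ∈ FK K, ‖P l r k‖ ^ (2 * ℓ) := by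
    calc (B.card : ℝ) * Real.exp (-(2 * a * (r * ℓ / l)))
        = ∑ k ∈ B, Real.exp (-(2 * a * (r * ℓ / l))) := by rw [sum_const, nsmul_eq_mul]
      _ ≤ ∑ k ∈ B, ‖P l r k‖ ^ (2 * ℓ) := by
          apply sum_le_sum
          intro k hk
          rw [hBdef, mem_filter, not_le] at hk
          have h1 : Real.exp (-(2 * a * (r * ℓ / l))) = Real.exp (-(a * r / l)) ^ (2 * ℓ) := by
            rw [← Real.exp_nat_mul]
            congr 1
            push_cast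
            ring
          rw [h1]
          exact pow_le_pow_left₀ (Real.exp_pos _).le hk.2.le _
      _ ≤ ∑ k ∈ FK K, ‖P l r k‖ ^ (2 * ℓ) :=
          sum_le_sum_of_subset_of_nonneg (filter_subset _ _) (fun _ _ _ => by positivity)
  have hup : C ^ (ℓ + 1) * (ℓ.factorial : ℝ) ^ 8 ≤
      C * Real.exp (16 * T ^ (11 / 12 : ℝ) * Real.log (2 * C * T)) := by
    have h1 : (ℓ.factorial : ℝ) ≤ (ℓ : ℝ) ^ ℓ := by exact_mod_cast Nat.factorial_le_pow ℓ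
    have h1' : (ℓ.factorial : ℝ) ^ 8 ≤ ((ℓ : ℝ) ^ ℓ) ^ 8 := by gcongr
    have h2 : (C ^ ℓ * (ℓ : ℝ) ^ ℓ) ^ 8 = Real.exp (8 * (ℓ * Real.log (C * ℓ))) := by
      have h2' : Real.exp (ℓ * Real.log (C * ℓ)) = C ^ ℓ * (ℓ : ℝ) ^ ℓ := by
        rw [Real.exp_nat_mul, Real.exp_log (by positivity), mul_pow]
      rw [← h2', ← Real.exp_nat_mul]
      norm_num
    have h3 : Real.log (C * ℓ) ≤ Real.log (2 * C * T) :=
      Real.log_le_log (by positivity) (by nlinarith)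
    have h4 : 0 ≤ Real.log (2 * C * T) := Real.log_nonneg (by nlinarith)
    have h5 : C ^ ℓ ≤ (C ^ ℓ) ^ 8 := le_self_pow₀ (one_le_pow₀ hC) (by norm_num)
    calc C ^ (ℓ + 1) * (ℓ.factorial : ℝ) ^ 8 ≤ C ^ (ℓ + 1) * ((ℓ : ℝ) ^ ℓ) ^ 8 := by gcongr
      _ = C * (C ^ ℓ * ((ℓ : ℝ) ^ ℓ) ^ 8) := by ring
      _ ≤ C * ((C ^ ℓ) ^ 8 * ((ℓ : ℝ) ^ ℓ) ^ 8) := by gcongr
      _ = C * (C ^ ℓ * (ℓ : ℝ) ^ ℓ) ^ 8 := by rw [mul_pow]
      _ = C * Real.exp (8 * (ℓ * Real.log (C * ℓ))) := by rw [h2]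
      _ ≤ C * Real.exp (16 * T ^ (11 / 12 : ℝ) * Real.log (2 * C * T)) := by
          apply mul_le_mul_of_nonneg_left _ hC0.le
          apply Real.exp_le_exp.mpr
          calc 8 * ((ℓ : ℝ) * Real.log (C * ℓ)) ≤ 8 * (ℓ * Real.log (2 * C * T)) := by gcongr
            _ ≤ 8 * ((2 * T ^ (11 / 12 : ℝ)) * Real.log (2 * C * T)) := by gcongr
            _ = 16 * T ^ (11 / 12 : ℝ) * Real.log (2 * C * T) := by ring
  have hmain : (B.card : ℝ) * Real.exp (-(2 * a * (r * ℓ / l))) ≤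
      C * Real.exp (16 * T ^ (11 / 12 : ℝ) * Real.log (2 * C * T)) :=
    hlow.trans (hm.trans hup)
  have hexpa : Real.exp (2 * a * (r * ℓ / l)) ≤ Real.exp (2 * α * (T + T ^ (1 / 2 : ℝ))) := by
    apply Real.exp_le_exp.mpr
    have h1 : 0 ≤ (r : ℝ) * ℓ / l := by positivity
    calc 2 * a * (r * ℓ / l) ≤ 2 * α * (r * ℓ / l) := by gcongr
      _ ≤ 2 * α * (T + T ^ (1 / 2 : ℝ)) := by
        have : 0 ≤ α := ha0.trans haα
        gcongr
  calc (B.card : ℝ) = Real.exp (2 * a * (r * ℓ / l)) *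
        ((B.card : ℝ) * Real.exp (-(2 * a * (r * ℓ / l)))) := by
        rw [mul_comm (B.card : ℝ), ← mul_assoc, ← Real.exp_add]; simp
    _ ≤ _ := by gcongr

/-- CNT for the abstract machine -/
theorem s_cnt : S_CNT := by
  classical
  intro P m G hM α hα _
  obtain ⟨C, hC, hmom⟩ := hM.momP
  obtain ⟨T₀, hT₀1, hT₀⟩ := cnt_asymA α C hα hC
  refine ⟨1, fun L hL => ⟨Real.exp T₀, fun Y hY j K h4 h12 hKY => ?_⟩⟩
  have hYpos : 0 < Y := lt_of_lt_of_le (Real.exp_pos _) hY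
  obtain ⟨T, hT⟩ : ∃ T : ℝ, T = Real.log Y := ⟨_, rfl⟩
  have hTT₀ : T₀ ≤ T := by
    rw [hT]; exact (Real.le_log_iff_exp_le hYpos).mpr hY
  have hT1 : 1 ≤ T := hT₀1.trans hTT₀
  have hYα : Y ^ (4 * α) = Real.exp (4 * α * T) := by
    rw [Real.rpow_def_of_pos hYpos, ← hT, mul_comm]
  rw [← hT] at h4 h12
  obtain ⟨l, hl⟩ : ∃ l : ℕ, l = LL L j := ⟨_, rfl⟩
  have hl1 : 1 ≤ l := by rw [hl]; exact LL_pos hL j
  rw [LL_succ_eq] at h12
  rw [← hl] at h4 h12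
  have h12' : T < (l : ℝ) ^ 12 := by
    calc T < ((l ^ 3 : ℕ) : ℝ) ^ 4 := h12
      _ = (l : ℝ) ^ 12 := by push_cast; ring
  rcases Nat.eq_zero_or_pos K with hK0 | hKpos
  · subst hK0
    have : FK 0 = ∅ := by simp [FK]
    rw [this]
    simp only [filter_empty, card_empty, Nat.cast_zero]
    positivity
  · have hsub : (FK K).filter (fun k => ¬ SmjA P L α j k) ⊆
        (Ico (l ^ 2) (l ^ 3)).biUnion (fun r => (FK K).filter
          (fun k => ¬ ‖P l r k‖ ≤ Real.exp (-(aa α j * r / l)))) := by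
      intro k hk
      rw [mem_filter] at hk
      obtain ⟨hkF, hkS⟩ := hk
      unfold SmjA SmA at hkS
      rw [← hl] at hkS
      push Not at hkS
      obtain ⟨r, hr, hrk⟩ := hkS
      rw [mem_biUnion]
      exact ⟨r, hr, mem_filter.mpr ⟨hkF, not_le.mpr hrk⟩⟩
    have hcard : (((FK K).filter (fun k => ¬ SmjA P L α j k)).card : ℝ) ≤
        ∑ r ∈ Ico (l ^ 2) (l ^ 3), (((FK K).filter
          (fun k => ¬ ‖P l r k‖ ≤ Real.exp (-(aa α j * r / l)))).card : ℝ) := by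
      have h1 := (card_le_card hsub).trans card_biUnion_le
      exact_mod_cast h1
    have hsum : ∑ r ∈ Ico (l ^ 2) (l ^ 3), (((FK K).filter
          (fun k => ¬ ‖P l r k‖ ≤ Real.exp (-(aa α j * r / l)))).card : ℝ) ≤
        ∑ r ∈ Ico (l ^ 2) (l ^ 3), (Real.exp (2 * α * (T + T ^ (1 / 2 : ℝ))) *
      (C * Real.exp (16 * T ^ (11 / 12 : ℝ) * Real.log (2 * C * T)))) := by
      apply sum_le_sum
      intro r hr
      rw [mem_Ico] at hr
      exact cnt_oneA P hC hmom (aa_nonneg hα.le j) (aa_le hα.le j) hT hYpos hT1 hl1 hr.1 hr.2.le h4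
        h12' hKpos hKY
    have hnum : ((Ico (l ^ 2) (l ^ 3)).card : ℝ) ≤ T := by
      rw [Nat.card_Ico]
      have h1 : ((l ^ 3 - l ^ 2 : ℕ) : ℝ) ≤ ((l ^ 4 : ℕ) : ℝ) := by
        have : l ^ 3 - l ^ 2 ≤ l ^ 4 :=
          (Nat.sub_le _ _).trans (Nat.pow_le_pow_right hl1 (by norm_num))
        exact_mod_cast this
      calc ((l ^ 3 - l ^ 2 : ℕ) : ℝ) ≤ ((l ^ 4 : ℕ) : ℝ) := h1
        _ = (l : ℝ) ^ 4 := by push_cast; ring
        _ ≤ T := h4
    rw [hYα]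
    refine hcard.trans (hsum.trans ?_)
    rw [sum_const, nsmul_eq_mul]
    refine le_trans ?_ (hT₀ T hTT₀)
    have hT0 : 0 < T := by linarith
    have hC0 : 0 < C := by linarith
    gcongr

end Pool.Agent.W397.GA
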